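import Pool.Agent.HL.Cor

/-!
# Extreme points of the unit ball of Hardy-Lorentz spaces (MP_b33f11_an)

For every non-decreasing concave `Ψ` on `[0, 2π]` with `Ψ 0 = 0` we characterise exactly the extreme
points of the closed unit ball of `H(Λ(Ψ))`:
(A) for all `Ψ`, by pointwise conditions on the boundary functions;
(B) for strictly increasing `Ψ`, in terms of the inner part of `f` and of `|F|`;
(C) for strictly concave `Ψ`, in terms of the inner part of `f` and Lipschitz functions of `|F|`.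
-/

open MeasureTheory Set Filter Topology Metric
open scoped ENNReal Real

namespace Pool.Agent.Results.MP_b33f11_an.ExtremePoints

open Pool.Agent.HL

theorem result (Ψ : LorentzFn) (f : ℂ → ℂ) :
    (IsExtremePt Ψ f ↔
      DifferentiableOn ℂ f (ball 0 1) ∧ hardyNorm Ψ f = 1 ∧
        ∀ g : ℂ → ℂ, MemHardy Ψ g → Perturb Ψ (bv f) (bv g) →
          ∃ c : ℝ, ∀ z ∈ ball (0 : ℂ) 1, g z = c * f z) ∧
    (StrictMonoOn Ψ (Icc 0 (2 * π)) →
      (IsExtremePt Ψ f ↔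
        DifferentiableOn ℂ f (ball 0 1) ∧ hardyNorm Ψ f = 1 ∧
          ∀ h : ℝ → ℝ,
            (∃ q : ℂ → ℂ, BddAn q ∧ ∀ᵐ t ∂mu, bv q t = h t * bv (innerPart f) t) →
            LipCond Ψ (bv f) h → ∃ c : ℝ, ∀ᵐ t ∂mu, h t = c) ∧
      (DifferentiableOn ℂ f (ball 0 1) → hardyNorm Ψ f = 1 →
        (∃ κ : ℂ, ∀ z ∈ ball (0 : ℂ) 1, innerPart f z = κ) → IsExtremePt Ψ f)) ∧
    (StrictConcaveOn ℝ (Icc 0 (2 * π)) Ψ →
      (IsExtremePt Ψ f ↔
        DifferentiableOn ℂ f (ball 0 1) ∧ hardyNorm Ψ f = 1 ∧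
          ∀ D : ℝ → ℝ, D 0 = 0 → (∃ L, LipschitzWith L D) →
            (∃ q : ℂ → ℂ, BddAn q ∧ ∀ᵐ t ∂mu,
              bv q t = ((D ‖bv f t‖ / ‖bv f t‖ : ℝ) : ℂ) * bv (innerPart f) t) →
            ∃ c : ℝ, ∀ᵐ t ∂mu, D ‖bv f t‖ = c * ‖bv f t‖)) :=
  ⟨extreme_iff_bv Ψ f,
    fun hΨ => ⟨extreme_iff_inner Ψ hΨ f, fun hd hn ⟨_, hκ⟩ => extreme_of_outer Ψ hΨ hd hn hκ⟩,
    fun hΨ => extreme_iff_concave Ψ hΨ f⟩

end Pool.Agent.Results.MP_b33f11_an.ExtremePoints
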